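import Mathlib
import Pool.Agent.H26CC.B

/-! Vectors and matrices of size 3. -/

namespace Pool.Agent.H26BT

open Matrix Finset

variable {R : Type*} [CommRing R]

/-- The vector product. -/
def cr (p q : Fin 3 → R) : Fin 3 → R :=
  ![p 1 * q 2 - p 2 * q 1, p 2 * q 0 - p 0 * q 2, p 0 * q 1 - p 1 * q 0]

theorem cr0 (p q : Fin 3 → R) : cr p q 0 = p 1 * q 2 - p 2 * q 1 := rfl
theorem cr1 (p q : Fin 3 → R) : cr p q 1 = p 2 * q 0 - p 0 * q 2 := rfl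
theorem cr2 (p q : Fin 3 → R) : cr p q 2 = p 0 * q 1 - p 1 * q 0 := rfl

theorem dp_eq (p q : Fin 3 → R) : p ⬝ᵥ q = p 0 * q 0 + p 1 * q 1 + p 2 * q 2 := by
  simp [dotProduct, Fin.sum_univ_three]

theorem mv_eq (M : Matrix (Fin 3) (Fin 3) R) (q : Fin 3 → R) (i : Fin 3) :
    (M *ᵥ q) i = M i 0 * q 0 + M i 1 * q 1 + M i 2 * q 2 := by
  rw [mulVec, dp_eq]

theorem vm_eq (M : Matrix (Fin 3) (Fin 3) R) (q : Fin 3 → R) (i : Fin 3) :
    (q ᵥ* M) i = q 0 * M 0 i + q 1 * M 1 i + q 2 * M 2 i := by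
  rw [vecMul, dp_eq]

theorem bac (u y q : Fin 3 → R) (i : Fin 3) :
    cr u (cr y q) i = (u ⬝ᵥ q) * y i - (u ⬝ᵥ y) * q i := by
  fin_cases i <;> simp only [Fin.zero_eta, Fin.mk_one, Fin.reduceFinMk, cr0, cr1, cr2, dp_eq] <;>
    ring

/-- An identity between four vectors. -/
theorem four (w v a b : Fin 3 → R) (i : Fin 3) :
    (w ⬝ᵥ v) * cr a b i = -(b ⬝ᵥ cr a v) * w i - (w ⬝ᵥ a) * cr b v i + (w ⬝ᵥ b) * cr a v i := by
  fin_cases i <;> simp only [Fin.zero_eta, Fin.mk_one, Fin.reduceFinMk, cr0, cr1, cr2, dp_eq] <;>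
    ring

theorem cof (B : Matrix (Fin 3) (Fin 3) R) (y z : Fin 3 → R) (i : Fin 3) :
    (B *ᵥ cr (y ᵥ* B) (z ᵥ* B)) i = B.det * cr y z i := by
  rw [det_fin_three]
  fin_cases i <;>
    simp only [Fin.zero_eta, Fin.mk_one, Fin.reduceFinMk, mv_eq, cr0, cr1, cr2, vm_eq] <;> ring

theorem cof2 (B : Matrix (Fin 3) (Fin 3) R) (y v : Fin 3 → R) (i : Fin 3) :
    (B *ᵥ cr (y ᵥ* B) v) i = cr y (B.adjugateᵀ *ᵥ v) i := by
  fin_cases i <;>
    simp only [Fin.zero_eta, Fin.mk_one, Fin.reduceFinMk, mv_eq, cr0, cr1, cr2, vm_eq,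
      transpose_apply, adjugate_fin_three, of_apply, Matrix.cons_val] <;> ring

/-- Two vectors which are orthogonal to the primitive vector `z`. -/
theorem cr_prim {w z p q : Fin 3 → R} (hw : w ⬝ᵥ z = 1) (hp : p ⬝ᵥ z = 0) (hq : q ⬝ᵥ z = 0)
    (i : Fin 3) : cr p q i = (w ⬝ᵥ cr p q) * z i := by
  have e : ∀ i, (w ⬝ᵥ z) * cr p q i = (w ⬝ᵥ cr p q) * z i +
      (q ⬝ᵥ z) * cr p w i - (p ⬝ᵥ z) * cr q w i := by
    intro i
    fin_cases i <;> simp only [Fin.zero_eta, Fin.mk_one, Fin.reduceFinMk, cr0, cr1, cr2, dp_eq] <;>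
      ring
  have := e i
  rw [hw, hp, hq] at this
  linear_combination this

end Pool.Agent.H26BT
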