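import Mathlib
import Pool.Agent.H26BT.A

/-! A count of primitive vectors in a plane. -/

namespace Pool.Agent.H26BT

open Matrix Finset
open Pool.Agent.H26CC (bz card_bz mem_bz rep_unique)
open Pool.Agent.H548.WM (ht le_ht le_ht' ht_le exists_ht Rep)
open Pool.Agent.H548.TC (Prim rep_prim prim_ne)

theorem par_u {R : Type*} [CommRing R] {u y z : Fin 3 → R} (hy : u ⬝ᵥ y = 0) (hz : u ⬝ᵥ z = 0)
    (j k : Fin 3) : u k * cr y z j = u j * cr y z k := by
  have e0 := bac u y z 0
  have e1 := bac u y z 1
  have e2 := bac u y z 2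
  rw [hy, hz, cr0 u (cr y z)] at e0
  rw [hy, hz, cr1 u (cr y z)] at e1
  rw [hy, hz, cr2 u (cr y z)] at e2
  fin_cases j <;> fin_cases k <;> simp only [Fin.zero_eta, Fin.mk_one, Fin.reduceFinMk]
  · linear_combination -e2
  · linear_combination e1
  · linear_combination e2
  · linear_combination -e0
  · linear_combination -e1
  · linear_combination e0

theorem prim_dp {v : Fin 3 → ℤ} (h : Prim v) : ∃ w : Fin 3 → ℤ, w ⬝ᵥ v = 1 := by
  obtain ⟨w, hw⟩ := h
  exact ⟨w, hw⟩

/-- Vectors whose vector product with the primitive vector `z` is zero. -/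
theorem cr_zero {w z p : Fin 3 → ℤ} (hw : w ⬝ᵥ z = 1) (h : ∀ i, cr p z i = 0) (i : Fin 3) :
    p i = (w ⬝ᵥ p) * z i := by
  have e := bac w p z i
  have e' : cr w (cr p z) i = 0 := by
    have : cr p z = fun _ => 0 := funext h
    rw [this]
    fin_cases i <;> simp [cr0, cr1, cr2]
  rw [e', hw] at e
  linear_combination -e

open Classical in
theorem plane_count (k : Fin 3) (u : Fin 3 → ℤ) (hu : u k ≠ 0) (S : Finset (Fin 3 → ℤ))
    (G N V D : ℕ) (hG : 1 ≤ G) (hN : 1 ≤ N) (hrep : ∀ y ∈ S, Rep y) (hS : ∀ y ∈ S, u ⬝ᵥ y = 0)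
    (h : ∀ y ∈ S, ∀ z ∈ S, (G : ℤ) ∣ N * cr y z k ∧ V * |cr y z k| ≤ D) :
    S.card * (G * V) ≤ G * V + 15 * (N * D) := by
  by_cases hall : ∀ y ∈ S, ∀ z ∈ S, cr y z k = 0
  · have h1 : S.card ≤ 1 := by
      rw [Finset.card_le_one]
      intro y hy z hz
      obtain ⟨w, hw⟩ := prim_dp (rep_prim (hrep z hz))
      obtain ⟨w', hw'⟩ := prim_dp (rep_prim (hrep y hy))
      have h2 : ∀ i, cr y z i = 0 := by
        intro i
        have := par_u (hS y hy) (hS z hz) i k
        rw [hall y hy z hz, mul_zero] at this
        exact (mul_eq_zero.1 this).resolve_left hu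
      have h3 := cr_zero hw h2
      have h4 : w ⬝ᵥ y ≠ 0 := by
        intro h5
        apply prim_ne (rep_prim (hrep y hy))
        funext i
        rw [h3 i, h5, zero_mul, Pi.zero_apply]
      exact rep_unique (hrep y hy) (hrep z hz) one_ne_zero h4 fun i => by rw [one_mul]; exact h3 i
    calc S.card * (G * V) ≤ 1 * (G * V) := Nat.mul_le_mul_right _ h1
      _ ≤ _ := by omega
  · push Not at hall
    obtain ⟨a, ha, b, hb, hab⟩ := hall
    obtain ⟨⟨y1, y2⟩, hy12, hmax⟩ := Finset.exists_max_image (S ×ˢ S)
      (fun s => (cr s.1 s.2 k).natAbs) ⟨(a, b), by rw [mem_product]; exact ⟨ha, hb⟩⟩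
    rw [mem_product] at hy12
    obtain ⟨hy1, hy2⟩ := hy12
    simp only at hy1 hy2 hmax
    set D0 := (cr y1 y2 k).natAbs with hD0
    have hD0pos : 1 ≤ D0 := by
      have h1 := hmax (a, b) (by rw [mem_product]; exact ⟨ha, hb⟩)
      simp only at h1
      have := Int.natAbs_pos.2 hab
      omega
    have hD0Z : (D0 : ℤ) = |cr y1 y2 k| := by rw [hD0, Int.abs_eq_natAbs]
    have hle : ∀ y ∈ S, ∀ z ∈ S, |cr y z k| ≤ D0 := by
      intro y hy z hz
      have h1 := hmax (y, z) (by rw [mem_product]; exact ⟨hy, hz⟩)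
      rw [Int.abs_eq_natAbs]
      exact_mod_cast h1
    have hVD : V * D0 ≤ D := by
      have h1 := (h y1 hy1 y2 hy2).2
      rw [← hD0Z] at h1
      exact_mod_cast h1
    have hGD : G ≤ N * D0 := by
      have h1 := (h y1 hy1 y2 hy2).1
      have h2 : (N : ℤ) * cr y1 y2 k ≠ 0 := by
        apply mul_ne_zero
        · exact_mod_cast (show N ≠ 0 by omega)
        · intro h3
          rw [h3] at hD0
          simp at hD0
          omega
      have h3 := Int.le_of_dvd (abs_pos.2 h2) ((dvd_abs _ _).2 h1)
      rw [abs_mul, ← hD0Z, Nat.abs_cast] at h3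
      exact_mod_cast h3
    have hGZ : (0 : ℤ) < G := by exact_mod_cast hG
    have hNZ : (0 : ℤ) < N := by exact_mod_cast hN
    obtain ⟨w, hw⟩ := prim_dp (rep_prim (hrep y1 hy1))
    -- the values
    set J := S.image fun y => cr y y1 k with hJ
    have hJc : J.card * G ≤ 3 * (N * D0) := by
      have h1 : J.card ≤ (bz (N * D0 / G)).card := by
        apply Finset.card_le_card_of_injOn (fun t : ℤ => (N : ℤ) * t / (G : ℤ))
        · intro t ht'
          rw [mem_coe, hJ, mem_image] at ht'
          obtain ⟨y, hy, rfl⟩ := ht'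
          obtain ⟨z, hz⟩ := (h y hy y1 hy1).1
          rw [mem_coe, mem_bz]
          simp only
          rw [hz, Int.mul_ediv_cancel_left _ hGZ.ne']
          push_cast
          rw [Int.le_ediv_iff_mul_le hGZ]
          have e := congrArg abs hz
          rw [abs_mul, abs_mul, abs_of_pos hGZ, abs_of_pos hNZ] at e
          calc |z| * G = (G : ℤ) * |z| := mul_comm _ _
            _ = N * |cr y y1 k| := e.symm
            _ ≤ N * D0 := by
                have := hle y hy y1 hy1
                gcongr
        · intro t ht' t' ht'' htt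
          rw [mem_coe, hJ, mem_image] at ht' ht''
          obtain ⟨y, hy, rfl⟩ := ht'
          obtain ⟨y', hy', rfl⟩ := ht''
          obtain ⟨z, hz⟩ := (h y hy y1 hy1).1
          obtain ⟨z', hz'⟩ := (h y' hy' y1 hy1).1
          simp only at htt
          rw [hz, hz', Int.mul_ediv_cancel_left _ hGZ.ne', Int.mul_ediv_cancel_left _ hGZ.ne']
            at htt
          rw [htt, ← hz'] at hz
          exact mul_left_cancel₀ hNZ.ne' hz
      rw [card_bz] at h1
      calc J.card * G ≤ (2 * (N * D0 / G) + 1) * G := Nat.mul_le_mul_right _ h1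
        _ = 2 * (N * D0 / G * G) + G := by ring
        _ ≤ 2 * (N * D0) + N * D0 := by
            have := Nat.div_mul_le_self (N * D0) G
            omega
        _ = 3 * (N * D0) := by ring
    have hfib : ∀ t ∈ J, (S.filter fun y => cr y y1 k = t).card ≤ 5 := by
      intro t _
      rcases (S.filter fun y => cr y y1 k = t).eq_empty_or_nonempty with h0 | ⟨y0, hy0⟩
      · rw [h0]
        simp
      rw [mem_filter] at hy0
      have hform : ∀ y ∈ S.filter fun y => cr y y1 k = t,
          ∀ i, y i - y0 i = (w ⬝ᵥ (y - y0)) * y1 i := by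
        intro y hy
        rw [mem_filter] at hy
        have hlin : ∀ i, cr (y - y0) y1 i = cr y y1 i - cr y0 y1 i := by
          intro i
          fin_cases i <;> simp only [Fin.zero_eta, Fin.mk_one, Fin.reduceFinMk, cr0, cr1, cr2,
            Pi.sub_apply] <;> ring
        have h1 : ∀ i, cr (y - y0) y1 i = 0 := by
          intro i
          have hu1 : u ⬝ᵥ (y - y0) = 0 := by
            rw [dotProduct_sub, hS y hy.1, hS y0 hy0.1, sub_zero]
          have h2 := par_u hu1 (hS y1 hy1) i k
          rw [hlin k, hy.2, hy0.2, sub_self, mul_zero] at h2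
          exact (mul_eq_zero.1 h2).resolve_left hu
        intro i
        have := cr_zero hw h1 i
        rwa [Pi.sub_apply] at this
      have h1 : (S.filter fun y => cr y y1 k = t).card ≤ (bz 2).card := by
        apply Finset.card_le_card_of_injOn (fun y => w ⬝ᵥ (y - y0))
        · intro y hy
          rw [mem_coe] at hy
          have hf := hform y hy
          rw [mem_filter] at hy
          rw [mem_coe, mem_bz]
          simp only
          set m := w ⬝ᵥ (y - y0) with hm
          have h2 : cr y y2 k - cr y0 y2 k = m * cr y1 y2 k := by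
            have e0 := hf 0
            have e1 := hf 1
            have e2 := hf 2
            fin_cases k <;> simp only [Fin.zero_eta, Fin.mk_one, Fin.reduceFinMk, cr0, cr1, cr2]
            · linear_combination y2 2 * e1 - y2 1 * e2
            · linear_combination y2 0 * e2 - y2 2 * e0
            · linear_combination y2 1 * e0 - y2 0 * e1
          have h3 : |m| * D0 ≤ 2 * D0 := by
            rw [hD0Z, ← abs_mul, ← h2, ← hD0Z]
            calc |cr y y2 k - cr y0 y2 k| ≤ |cr y y2 k| + |cr y0 y2 k| := abs_sub _ _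
              _ ≤ D0 + D0 := add_le_add (hle y hy.1 y2 hy2) (hle y0 hy0.1 y2 hy2)
              _ = 2 * D0 := by ring
          have h4 : (0 : ℤ) < D0 := by exact_mod_cast hD0pos
          exact_mod_cast le_of_mul_le_mul_right h3 h4
        · intro y hy z hz hyz
          rw [mem_coe] at hy hz
          simp only at hyz
          funext i
          have e1 := hform y hy i
          have e2 := hform z hz i
          rw [hyz] at e1
          linarith
      rw [card_bz] at h1
      exact h1
    have hSc : S.card = ∑ t ∈ J, (S.filter fun y => cr y y1 k = t).card :=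
      Finset.card_eq_sum_card_image _ _
    have h1 : S.card ≤ 5 * J.card := by
      rw [hSc]
      calc ∑ t ∈ J, (S.filter fun y => cr y y1 k = t).card ≤ ∑ t ∈ J, 5 := Finset.sum_le_sum hfib
        _ = 5 * J.card := by rw [Finset.sum_const, smul_eq_mul, mul_comm]
    calc S.card * (G * V) ≤ (5 * J.card) * (G * V) := Nat.mul_le_mul_right _ h1
      _ = 5 * V * (J.card * G) := by ring
      _ ≤ 5 * V * (3 * (N * D0)) := Nat.mul_le_mul_left _ hJc
      _ = 15 * (N * (V * D0)) := by ring
      _ ≤ 15 * (N * D) := by gcongr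
      _ ≤ _ := Nat.le_add_left _ _

end Pool.Agent.H26BT
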