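import Mathlib
import Pool.Agent.H26BT.B

/-! The number of the points over a given point `x`. -/

namespace Pool.Agent.H26BT

open Matrix Finset
open Pool.Agent.H26CC (bz card_bz mem_bz rep_unique)
open Pool.Agent.H548.WM (ht le_ht le_ht' ht_le exists_ht Rep)
open Pool.Agent.H548.TC (Prim rep_prim prim_ne)

/-- The sum of the absolute values of the entries. -/
def mx (M : Matrix (Fin 3) (Fin 3) ℤ) : ℕ := ∑ i, ∑ j, (M i j).natAbs

theorem le_mx (M : Matrix (Fin 3) (Fin 3) ℤ) :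
    (∀ i, |M i 0| + |M i 1| + |M i 2| ≤ (mx M : ℤ)) ∧
    (∀ j, |M 0 j| + |M 1 j| + |M 2 j| ≤ (mx M : ℤ)) := by
  have h : (mx M : ℤ) = (|M 0 0| + |M 0 1| + |M 0 2|) + (|M 1 0| + |M 1 1| + |M 1 2|) +
      (|M 2 0| + |M 2 1| + |M 2 2|) := by
    simp only [mx, Fin.sum_univ_three, Int.abs_eq_natAbs]
    push_cast
    ring
  rw [h]
  have n : ∀ i j, 0 ≤ |M i j| := fun i j => abs_nonneg _
  constructor
  · intro i
    fin_cases i <;> simp only [Fin.zero_eta, Fin.mk_one, Fin.reduceFinMk] <;>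
      linarith [n 0 0, n 0 1, n 0 2, n 1 0, n 1 1, n 1 2, n 2 0, n 2 1, n 2 2]
  · intro i
    fin_cases i <;> simp only [Fin.zero_eta, Fin.mk_one, Fin.reduceFinMk] <;>
      linarith [n 0 0, n 0 1, n 0 2, n 1 0, n 1 1, n 1 2, n 2 0, n 2 1, n 2 2]

theorem sum3 {a b c q0 q1 q2 Q m : ℤ} (h0 : |q0| ≤ Q) (h1 : |q1| ≤ Q) (h2 : |q2| ≤ Q)
    (h : |a| + |b| + |c| ≤ m) (hQ : 0 ≤ Q) : |a * q0 + b * q1 + c * q2| ≤ m * Q := by
  calc |a * q0 + b * q1 + c * q2| ≤ |a * q0| + |b * q1| + |c * q2| := by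
        refine (abs_add_le _ _).trans ?_
        gcongr
        exact abs_add_le _ _
    _ = |a| * |q0| + |b| * |q1| + |c| * |q2| := by rw [abs_mul, abs_mul, abs_mul]
    _ ≤ |a| * Q + |b| * Q + |c| * Q := by gcongr
    _ = (|a| + |b| + |c|) * Q := by ring
    _ ≤ m * Q := by gcongr

theorem mv_le (M : Matrix (Fin 3) (Fin 3) ℤ) (q : Fin 3 → ℤ) (Q : ℤ) (h : ∀ i, |q i| ≤ Q)
    (i : Fin 3) : |(M *ᵥ q) i| ≤ mx M * Q := by
  rw [mv_eq]
  exact sum3 (h 0) (h 1) (h 2) ((le_mx M).1 i) ((abs_nonneg _).trans (h 0))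

theorem vm_le (M : Matrix (Fin 3) (Fin 3) ℤ) (q : Fin 3 → ℤ) (Q : ℤ) (h : ∀ i, |q i| ≤ Q)
    (i : Fin 3) : |(q ᵥ* M) i| ≤ mx M * Q := by
  rw [vm_eq, show q 0 * M 0 i + q 1 * M 1 i + q 2 * M 2 i = M 0 i * q 0 + M 1 i * q 1 + M 2 i * q 2
    by ring]
  exact sum3 (h 0) (h 1) (h 2) ((le_mx M).2 i) ((abs_nonneg _).trans (h 0))

theorem dp_le {p q : Fin 3 → ℤ} {P Q : ℤ} (hp : ∀ i, |p i| ≤ P) (hq : ∀ i, |q i| ≤ Q) :
    |p ⬝ᵥ q| ≤ 3 * (P * Q) := by
  rw [dp_eq]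
  have hQ : 0 ≤ Q := (abs_nonneg _).trans (hq 0)
  have h := sum3 (hq 0) (hq 1) (hq 2) (add_le_add (add_le_add (hp 0) (hp 1)) (hp 2)) hQ
  linarith

theorem cr_le {p q : Fin 3 → ℤ} {P Q : ℤ} (hp : ∀ i, |p i| ≤ P) (hq : ∀ i, |q i| ≤ Q) (i : Fin 3) :
    |cr p q i| ≤ 2 * (P * Q) := by
  have hP : 0 ≤ P := (abs_nonneg _).trans (hp 0)
  have h : ∀ i j, |p i * q j - p j * q i| ≤ 2 * (P * Q) := by
    intro i j
    calc |p i * q j - p j * q i| ≤ |p i * q j| + |p j * q i| := abs_sub _ _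
      _ = |p i| * |q j| + |p j| * |q i| := by rw [abs_mul, abs_mul]
      _ ≤ P * Q + P * Q := by
          have := hp i
          have := hp j
          have := hq i
          have := hq j
          gcongr
      _ = 2 * (P * Q) := by ring
  fin_cases i
  · exact h 1 2
  · exact h 2 0
  · exact h 0 1

theorem adj_mv (C : Matrix (Fin 3) (Fin 3) ℤ) (x : Fin 3 → ℤ) (i : Fin 3) :
    (C.adjugate *ᵥ (C *ᵥ x)) i = C.det * x i := by
  rw [mulVec_mulVec, adjugate_mul, smul_mulVec, one_mulVec, Pi.smul_apply, smul_eq_mul]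

theorem adj_vm (A : Matrix (Fin 3) (Fin 3) ℤ) (x : Fin 3 → ℤ) (i : Fin 3) :
    ((x ᵥ* A) ᵥ* A.adjugate) i = A.det * x i := by
  rw [vecMul_vecMul, mul_adjugate, vecMul_smul, vecMul_one, Pi.smul_apply, smul_eq_mul]

/-- The divisibility. -/
theorem dvd_key {A B C : Matrix (Fin 3) (Fin 3) ℤ} {w x y y' : Fin 3 → ℤ} {g : ℤ}
    (hw : w ⬝ᵥ x = 1) (hy : (x ᵥ* A) ⬝ᵥ y = 0) (hy' : (x ᵥ* A) ⬝ᵥ y' = 0)
    (hg : ∀ i, g ∣ cr (y ᵥ* B) (C *ᵥ x) i) (hg' : ∀ i, g ∣ cr (y' ᵥ* B) (C *ᵥ x) i) (k : Fin 3) :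
    g * (x ᵥ* A) k ∣ (A.det * B.det * C.det) * cr y y' k := by
  set a := y ᵥ* B with ha
  set a' := y' ᵥ* B with ha'
  set v := C *ᵥ x with hv
  set u := x ᵥ* A with hu
  set ω := w ᵥ* C.adjugate with hω
  have h1 : ω ⬝ᵥ v = C.det := by
    rw [hω, ← dotProduct_mulVec]
    have : C.adjugate *ᵥ v = C.det • x := by
      funext i
      rw [hv, adj_mv, Pi.smul_apply, smul_eq_mul]
    rw [this, dotProduct_smul, hw, smul_eq_mul, mul_one]
  have h2 : ∀ i, g ∣ C.det * cr a a' i := by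
    intro i
    rw [← h1, four ω v a a' i]
    refine dvd_add (dvd_sub ?_ ?_) ?_
    · rw [neg_mul, dvd_neg]
      apply Dvd.dvd.mul_right
      rw [dp_eq]
      exact dvd_add (dvd_add (Dvd.dvd.mul_left (hg 0) _) (Dvd.dvd.mul_left (hg 1) _))
        (Dvd.dvd.mul_left (hg 2) _)
    · exact Dvd.dvd.mul_left (hg' i) _
    · exact Dvd.dvd.mul_left (hg i) _
  have h3 : ∀ i, g ∣ C.det * B.det * cr y y' i := by
    intro i
    have e : C.det * B.det * cr y y' i = B i 0 * (C.det * cr a a' 0) +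
        B i 1 * (C.det * cr a a' 1) + B i 2 * (C.det * cr a a' 2) := by
      have := cof B y y' i
      rw [mv_eq] at this
      rw [mul_assoc, ← this]
      ring
    rw [e]
    exact dvd_add (dvd_add (Dvd.dvd.mul_left (h2 0) _) (Dvd.dvd.mul_left (h2 1) _))
      (Dvd.dvd.mul_left (h2 2) _)
  set κ := A.adjugate *ᵥ w with hκ
  have h4 : u ⬝ᵥ κ = A.det := by
    rw [hκ, dotProduct_mulVec]
    have : u ᵥ* A.adjugate = A.det • x := by
      funext i
      rw [hu, adj_vm, Pi.smul_apply, smul_eq_mul]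
    rw [this, smul_dotProduct, dotProduct_comm, hw, smul_eq_mul, mul_one]
  have h5 : A.det * cr y y' k = u k * (κ ⬝ᵥ cr y y') := by
    rw [← h4, dp_eq, dp_eq]
    have p0 := par_u hy hy' 0 k
    have p1 := par_u hy hy' 1 k
    have p2 := par_u hy hy' 2 k
    linear_combination -(κ 0 * p0) - κ 1 * p1 - κ 2 * p2
  have h6 : g ∣ C.det * B.det * (κ ⬝ᵥ cr y y') := by
    rw [dp_eq]
    have e : C.det * B.det * (κ 0 * cr y y' 0 + κ 1 * cr y y' 1 + κ 2 * cr y y' 2) =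
        κ 0 * (C.det * B.det * cr y y' 0) + κ 1 * (C.det * B.det * cr y y' 1) +
        κ 2 * (C.det * B.det * cr y y' 2) := by ring
    rw [e]
    exact dvd_add (dvd_add (Dvd.dvd.mul_left (h3 0) _) (Dvd.dvd.mul_left (h3 1) _))
      (Dvd.dvd.mul_left (h3 2) _)
  have h7 : (A.det * B.det * C.det) * cr y y' k = (C.det * B.det * (κ ⬝ᵥ cr y y')) * u k := by
    linear_combination (B.det * C.det) * h5
  rw [h7]
  exact mul_dvd_mul_right h6 _

/-- The size. -/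
theorem size_key {B C : Matrix (Fin 3) (Fin 3) ℤ} {x y y' : Fin 3 → ℤ} {g Y Z : ℕ}
    (hB : B.det ≠ 0) (hv0 : 1 ≤ ht (C *ᵥ x))
    (hy : ht y ≤ Y) (hy' : ht y' ≤ Y)
    (hz : ∀ i, |cr (y ᵥ* B) (C *ᵥ x) i| ≤ g * Z) (hz' : ∀ i, |cr (y' ᵥ* B) (C *ᵥ x) i| ≤ g * Z)
    (k : Fin 3) :
    (ht (C *ᵥ x) : ℤ) * |cr y y' k| ≤ 9 * mx B ^ 2 * g * Y * Z := by
  set a := y ᵥ* B with ha
  set a' := y' ᵥ* B with ha'
  set v := C *ᵥ x with hv
  have hyi : ∀ i, |y i| ≤ (Y : ℤ) := fun i => (le_ht' y i).trans (by exact_mod_cast hy)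
  have hyi' : ∀ i, |y' i| ≤ (Y : ℤ) := fun i => (le_ht' y' i).trans (by exact_mod_cast hy')
  have hai : ∀ i, |a i| ≤ mx B * Y := fun i => vm_le B y Y hyi i
  have hai' : ∀ i, |a' i| ≤ mx B * Y := fun i => vm_le B y' Y hyi' i
  have hvi : ∀ i, |v i| ≤ (ht v : ℤ) := le_ht' v
  set V : ℤ := (ht v : ℤ) with hV
  have hV1 : 1 ≤ V := by
    rw [hV]
    exact_mod_cast hv0
  have hvv : V ^ 2 ≤ v ⬝ᵥ v := by
    obtain ⟨m, hm⟩ := exists_ht (by norm_num) v
    rw [hV, ← hm, sq_abs, dp_eq]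
    have n : ∀ i, 0 ≤ v i * v i := fun i => mul_self_nonneg _
    fin_cases m <;> simp only [Fin.zero_eta, Fin.mk_one, Fin.reduceFinMk] <;>
      nlinarith [n 0, n 1, n 2]
  have hc : ∀ i, V * |cr a a' i| ≤ 9 * (mx B * Y) * (g * Z) := by
    intro i
    have h1 := four v v a a' i
    have h2 : (v ⬝ᵥ v) * |cr a a' i| ≤ V * (9 * (mx B * Y) * (g * Z)) := by
      have h0 : 0 ≤ v ⬝ᵥ v := le_trans (sq_nonneg V) hvv
      rw [← abs_of_nonneg h0, ← abs_mul, h1]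
      have e1 : |(a' ⬝ᵥ cr a v) * v i| ≤ 3 * ((mx B * Y) * (g * Z)) * V := by
        rw [abs_mul]
        have := dp_le hai' hz
        have := hvi i
        have := abs_nonneg (v i)
        gcongr
      have e2 : |(v ⬝ᵥ a) * cr a' v i| ≤ 3 * (V * (mx B * Y)) * (g * Z) := by
        rw [abs_mul]
        have := dp_le hvi hai
        have := hz' i
        gcongr
      have e3 : |(v ⬝ᵥ a') * cr a v i| ≤ 3 * (V * (mx B * Y)) * (g * Z) := by
        rw [abs_mul]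
        have := dp_le hvi hai'
        have := hz i
        gcongr
      calc |-(a' ⬝ᵥ cr a v) * v i - (v ⬝ᵥ a) * cr a' v i + (v ⬝ᵥ a') * cr a v i|
          ≤ |-(a' ⬝ᵥ cr a v) * v i - (v ⬝ᵥ a) * cr a' v i| + |(v ⬝ᵥ a') * cr a v i| :=
            abs_add_le _ _
        _ ≤ (|(a' ⬝ᵥ cr a v) * v i| + |(v ⬝ᵥ a) * cr a' v i|) + |(v ⬝ᵥ a') * cr a v i| := by
            gcongr
            refine (abs_sub _ _).trans ?_
            rw [neg_mul, abs_neg]
        _ ≤ _ := by linarith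
    have h3 : V * (V * |cr a a' i|) ≤ V * (9 * (mx B * Y) * (g * Z)) := by
      refine le_trans ?_ h2
      have := mul_le_mul_of_nonneg_right hvv (abs_nonneg (cr a a' i))
      linarith
    exact le_of_mul_le_mul_left h3 (by linarith)
  have hk : V * |cr y y' k| ≤ V * |(B *ᵥ cr a a') k| := by
    rw [cof, abs_mul]
    have h1 : 1 ≤ |B.det| := Int.one_le_abs hB
    have h2 := le_mul_of_one_le_left (abs_nonneg (cr y y' k)) h1
    gcongr
  refine hk.trans ?_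
  have h1 : V * |(B *ᵥ cr a a') k| = |(B *ᵥ fun i => V * cr a a' i) k| := by
    rw [mv_eq, mv_eq, ← abs_of_nonneg (show 0 ≤ V by linarith), ← abs_mul]
    congr 1
    rw [abs_of_nonneg (show 0 ≤ V by linarith)]
    ring
  rw [h1]
  refine (mv_le B _ (9 * (mx B * Y) * (g * Z)) (fun i => ?_) k).trans (le_of_eq (by ring))
  rw [abs_mul, abs_of_nonneg (show 0 ≤ V by linarith)]
  exact hc i

theorem ht_u {A : Matrix (Fin 3) (Fin 3) ℤ} (hA : A.det ≠ 0) (x : Fin 3 → ℤ) :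
    ht x ≤ mx A.adjugate * ht (x ᵥ* A) := by
  apply ht_le
  intro i
  have h := adj_vm A x i
  have h1 : |x i| ≤ |A.det * x i| := by
    rw [abs_mul]
    exact le_mul_of_one_le_left (abs_nonneg _) (Int.one_le_abs hA)
  rw [← h] at h1
  push_cast
  exact h1.trans (vm_le _ _ _ (le_ht' _) i)

theorem ht_v {C : Matrix (Fin 3) (Fin 3) ℤ} (hC : C.det ≠ 0) (x : Fin 3 → ℤ) :
    ht x ≤ mx C.adjugate * ht (C *ᵥ x) := by
  apply ht_le
  intro i
  have h := adj_mv C x i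
  have h1 : |x i| ≤ |C.det * x i| := by
    rw [abs_mul]
    exact le_mul_of_one_le_left (abs_nonneg _) (Int.one_le_abs hC)
  rw [← h] at h1
  push_cast
  exact h1.trans (mv_le _ _ _ (le_ht' _) i)

/-- The constant. -/
def kc (A B C : Matrix (Fin 3) (Fin 3) ℤ) : ℕ :=
  mx A.adjugate * mx C.adjugate * (15 * ((A.det * B.det * C.det).natAbs * (9 * mx B ^ 2)))

/-- The number of `y` for given `x` and `g`. -/
theorem fib_xg {A B C : Matrix (Fin 3) (Fin 3) ℤ} (hA : A.det ≠ 0) (hB : B.det ≠ 0)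
    (hC : C.det ≠ 0) {x : Fin 3 → ℤ} (hx : Rep x) (g Y Z : ℕ) (hg : 1 ≤ g)
    (S : Finset (Fin 3 → ℤ))
    (hS : ∀ y ∈ S, Rep y ∧ (x ᵥ* A) ⬝ᵥ y = 0 ∧ ht y ≤ Y ∧
      (∀ i, (g : ℤ) ∣ cr (y ᵥ* B) (C *ᵥ x) i ∧ |cr (y ᵥ* B) (C *ᵥ x) i| ≤ g * Z)) :
    S.card * ht x ^ 2 ≤ ht x ^ 2 + kc A B C * (Y * Z) := by
  obtain ⟨w, hw⟩ := prim_dp (rep_prim hx)
  have hx0 : 1 ≤ ht x := Pool.Agent.H548.WM.ht_pos (prim_ne (rep_prim hx))
  have hU := ht_u hA x
  have hV := ht_v hC x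
  set U := ht (x ᵥ* A) with hUdef
  set V := ht (C *ᵥ x) with hVdef
  have hU1 : 1 ≤ U := by
    rcases Nat.eq_zero_or_pos U with h | h
    · rw [h] at hU
      omega
    · exact h
  have hV1 : 1 ≤ V := by
    rcases Nat.eq_zero_or_pos V with h | h
    · rw [h] at hV
      omega
    · exact h
  obtain ⟨k, hk⟩ := exists_ht (by norm_num) (x ᵥ* A)
  rw [← hUdef] at hk
  have huk : (x ᵥ* A) k ≠ 0 := by
    intro h
    rw [h, abs_zero] at hk
    omega
  set N := (A.det * B.det * C.det).natAbs with hN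
  have hN1 : 1 ≤ N := by
    have := Int.natAbs_pos.2 (mul_ne_zero (mul_ne_zero hA hB) hC)
    omega
  have h1 := plane_count k (x ᵥ* A) huk S (g * U) N V (9 * mx B ^ 2 * g * Y * Z)
    (Nat.mul_pos hg hU1) hN1 (fun y hy => (hS y hy).1) (fun y hy => (hS y hy).2.1) (by
      intro y hy z hz
      obtain ⟨-, a2, a3, a4⟩ := hS y hy
      obtain ⟨-, b2, b3, b4⟩ := hS z hz
      constructor
      · have h2 := dvd_key (g := (g : ℤ)) hw a2 b2 (fun i => (a4 i).1) (fun i => (b4 i).1) k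
        have e1 : ((g * U : ℕ) : ℤ) ∣ (g : ℤ) * (x ᵥ* A) k := by
          push_cast
          rw [← hk]
          exact mul_dvd_mul_left _ ((abs_dvd _ _).2 dvd_rfl)
        have e2 : (A.det * B.det * C.det) * cr y z k ∣ (N : ℤ) * cr y z k := by
          apply mul_dvd_mul_right
          rw [hN]
          exact Int.dvd_natAbs.2 dvd_rfl
        exact (e1.trans h2).trans e2
      · have h2 := size_key (k := k) hB hV1 a3 b3 (fun i => (a4 i).2) (fun i => (b4 i).2)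
        push_cast
        exact h2)
  have h2 : S.card * (U * V) ≤ U * V + 15 * (N * (9 * mx B ^ 2)) * (Y * Z) := by
    have h3 : (S.card * (U * V)) * g ≤ (U * V + 15 * (N * (9 * mx B ^ 2)) * (Y * Z)) * g := by
      calc (S.card * (U * V)) * g = S.card * (g * U * V) := by ring
        _ ≤ _ := h1
        _ = _ := by ring
    exact Nat.le_of_mul_le_mul_right h3 hg
  rcases Nat.eq_zero_or_pos S.card with h0 | hpos
  · rw [h0]
    omega
  obtain ⟨s, hs⟩ : ∃ s, S.card = s + 1 := ⟨S.card - 1, by omega⟩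
  rw [hs] at h2 ⊢
  have h4 : s * (U * V) ≤ 15 * (N * (9 * mx B ^ 2)) * (Y * Z) := by
    have e : (s + 1) * (U * V) = s * (U * V) + U * V := by ring
    rw [e] at h2
    omega
  calc (s + 1) * ht x ^ 2 = ht x ^ 2 + s * (ht x * ht x) := by ring
    _ ≤ ht x ^ 2 + s * ((mx A.adjugate * U) * (mx C.adjugate * V)) := by gcongr
    _ = ht x ^ 2 + (mx A.adjugate * mx C.adjugate) * (s * (U * V)) := by ring
    _ ≤ ht x ^ 2 + (mx A.adjugate * mx C.adjugate) * (15 * (N * (9 * mx B ^ 2)) * (Y * Z)) := by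
        gcongr
    _ = ht x ^ 2 + kc A B C * (Y * Z) := by
        rw [kc, ← hN]
        ring

end Pool.Agent.H26BT
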