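import Mathlib
import Pool.Agent.H26BT.C

/-! The number of points if the first coordinate has the smallest height. -/

namespace Pool.Agent.H26BT

open Matrix Finset
open Pool.Agent.H26CC (bz card_bz mem_bz rep_unique)
open Pool.Agent.H548.WM (ht bx le_ht le_ht' ht_le exists_ht mem_bx card_bx ht_pos Rep)
open Pool.Agent.H548.TC (Prim rep_prim prim_ne)

/-- The three equations `x ᵀ A y = 0`, `y ᵀ B z = 0`, `z ᵀ C x = 0`. -/
def Tri {R : Type*} [CommRing R] (A B C : Matrix (Fin 3) (Fin 3) R) (x y z : Fin 3 → R) : Prop :=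
  x ⬝ᵥ A *ᵥ y = 0 ∧ y ⬝ᵥ B *ᵥ z = 0 ∧ z ⬝ᵥ C *ᵥ x = 0

/-- The quadratic form `x ᵀ A (adj B) ᵀ C x`. -/
def psi {R : Type*} [CommRing R] (A B C : Matrix (Fin 3) (Fin 3) R) (x : Fin 3 → R) : R :=
  x ⬝ᵥ (A * B.adjugateᵀ * C) *ᵥ x

theorem Tri.rot {R : Type*} [CommRing R] {A B C : Matrix (Fin 3) (Fin 3) R} {x y z : Fin 3 → R}
    (h : Tri A B C x y z) : Tri B C A y z x := ⟨h.2.1, h.2.2, h.1⟩

theorem ez {A B C : Matrix (Fin 3) (Fin 3) ℤ} {x y z : Fin 3 → ℤ} (hz : Prim z)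
    (h : Tri A B C x y z) : ∃ e : ℤ, ∀ i, cr (y ᵥ* B) (C *ᵥ x) i = e * z i := by
  obtain ⟨w, hw⟩ := prim_dp hz
  refine ⟨w ⬝ᵥ cr (y ᵥ* B) (C *ᵥ x), fun i => cr_prim hw ?_ ?_ i⟩
  · rw [← dotProduct_mulVec]
    exact h.2.1
  · rw [dotProduct_comm]
    exact h.2.2

theorem psi_eq {R : Type*} [CommRing R] (A B C : Matrix (Fin 3) (Fin 3) R) (x : Fin 3 → R) :
    psi A B C x = (x ᵥ* A) ⬝ᵥ (B.adjugateᵀ *ᵥ (C *ᵥ x)) := by
  rw [psi, ← mulVec_mulVec, ← mulVec_mulVec, ← dotProduct_mulVec]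

theorem prod_e {A B C : Matrix (Fin 3) (Fin 3) ℤ} {x y z : Fin 3 → ℤ} (hy : y ≠ 0)
    (h : Tri A B C x y z) {e e' : ℤ} (he : ∀ i, cr (y ᵥ* B) (C *ᵥ x) i = e * z i)
    (he' : ∀ i, cr (x ᵥ* A) (B *ᵥ z) i = e' * y i) : e * e' = psi A B C x := by
  have h1 : ∀ i, (e * e') * y i = psi A B C x * y i := by
    intro i
    have h2 : cr (x ᵥ* A) (cr y (B.adjugateᵀ *ᵥ (C *ᵥ x))) i = e * (e' * y i) := by
      have h3 : ∀ j, cr y (B.adjugateᵀ *ᵥ (C *ᵥ x)) j = e * (B *ᵥ z) j := by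
        intro j
        rw [← cof2, mv_eq, he, he, he, mv_eq]
        ring
      rw [← he' i]
      fin_cases i <;> simp only [Fin.zero_eta, Fin.mk_one, Fin.reduceFinMk]
      · rw [cr0 (x ᵥ* A), cr0 (x ᵥ* A), h3, h3]
        ring
      · rw [cr1 (x ᵥ* A), cr1 (x ᵥ* A), h3, h3]
        ring
      · rw [cr2 (x ᵥ* A), cr2 (x ᵥ* A), h3, h3]
        ring
    rw [bac, ← dotProduct_mulVec x A y, h.1] at h2
    rw [psi_eq]
    linear_combination -h2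
  by_contra hne
  apply hy
  funext i
  have h2 := h1 i
  have h3 : (e * e' - psi A B C x) * y i = 0 := by linear_combination h2
  rcases mul_eq_zero.1 h3 with h4 | h4
  · exact absurd (by linarith) hne
  · exact h4

/-- The factor `g`. -/
theorem exists_g {A B C : Matrix (Fin 3) (Fin 3) ℤ} {x y z : Fin 3 → ℤ} (hy : Prim y) (hz : Prim z)
    (h : Tri A B C x y z) (hp : psi A B C x ≠ 0) : ∃ e : ℤ, e ≠ 0 ∧ e ∣ psi A B C x ∧
      ∀ i, cr (y ᵥ* B) (C *ᵥ x) i = e * z i := by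
  obtain ⟨e, he⟩ := ez hz h
  obtain ⟨e', he'⟩ := ez hy h.rot.rot
  have h1 := prod_e (prim_ne hy) h he he'
  refine ⟨e, ?_, ⟨e', h1.symm⟩, he⟩
  rintro rfl
  rw [zero_mul] at h1
  exact hp h1.symm

theorem psi_le {A B C : Matrix (Fin 3) (Fin 3) ℤ} {x : Fin 3 → ℤ} {X : ℕ} (hx : ht x ≤ X) :
    (psi A B C x).natAbs ≤ 3 * mx (A * B.adjugateᵀ * C) * X ^ 2 := by
  have hxi : ∀ i, |x i| ≤ (X : ℤ) := fun i => (le_ht' x i).trans (by exact_mod_cast hx)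
  have h := dp_le hxi (mv_le (A * B.adjugateᵀ * C) x X hxi)
  have h1 : |psi A B C x| ≤ 3 * mx (A * B.adjugateᵀ * C) * X ^ 2 := by
    refine h.trans (le_of_eq ?_)
    ring
  rw [Int.abs_eq_natAbs] at h1
  exact_mod_cast h1

open Classical in
/-- The number of points if the first coordinate has the smallest height. -/
theorem cntx {A B C : Matrix (Fin 3) (Fin 3) ℤ} (hA : A.det ≠ 0) (hB : B.det ≠ 0) (hC : C.det ≠ 0)
    (X Y Z τ : ℕ) (hX : 1 ≤ X) (hXY : X ≤ Y) (hXZ : X ≤ Z)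
    (hτ : ∀ n : ℕ, 1 ≤ n → n ≤ 3 * mx (A * B.adjugateᵀ * C) * X ^ 2 → n.divisors.card ≤ τ)
    (S : Finset ((Fin 3 → ℤ) × (Fin 3 → ℤ) × (Fin 3 → ℤ)))
    (hS : ∀ s ∈ S, Rep s.1 ∧ Rep s.2.1 ∧ Rep s.2.2 ∧ Tri A B C s.1 s.2.1 s.2.2 ∧
      psi A B C s.1 ≠ 0 ∧ ht s.1 ≤ X ∧ X ≤ 2 * ht s.1 ∧ ht s.2.1 ≤ Y ∧ ht s.2.2 ≤ Z) :
    S.card ≤ 108 * (1 + kc A B C) * τ * (X * Y * Z) := by
  have hfib : ∀ x ∈ bx 3 X, (S.filter fun s => s.1 = x).card * X ^ 2 ≤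
      4 * τ * ((1 + kc A B C) * (Y * Z)) := by
    intro x _
    set T := S.filter fun s => s.1 = x with hT
    rcases T.eq_empty_or_nonempty with h0 | ⟨s0, hs0⟩
    · rw [h0]
      simp
    rw [hT, mem_filter] at hs0
    obtain ⟨b1, -, -, -, b5, b6, b7, -, -⟩ := hS s0 hs0.1
    rw [hs0.2] at b1 b5 b6 b7
    have hx0 : 1 ≤ ht x := ht_pos (prim_ne (rep_prim b1))
    set n := (psi A B C x).natAbs with hn
    have hn1 : 1 ≤ n := by
      have := Int.natAbs_pos.2 b5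
      omega
    have hn2 := psi_le (A := A) (B := B) (C := C) b6
    rw [← hn] at hn2
    -- the projection to `y`
    have hinj : Set.InjOn (fun s : (Fin 3 → ℤ) × (Fin 3 → ℤ) × (Fin 3 → ℤ) => s.2.1)
        (T : Set ((Fin 3 → ℤ) × (Fin 3 → ℤ) × (Fin 3 → ℤ))) := by
      rintro ⟨x1, y1, z1⟩ h1 ⟨x2, y2, z2⟩ h2 h12
      rw [mem_coe, hT, mem_filter] at h1 h2
      obtain ⟨h1, e1⟩ := h1
      obtain ⟨h2, e2⟩ := h2
      simp only at e1 e2 h12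
      subst e1 e2 h12
      obtain ⟨-, a2, a3, a4, a5, -⟩ := hS _ h1
      obtain ⟨-, c2, c3, c4, c5, -⟩ := hS _ h2
      simp only at a2 a3 a4 a5 c2 c3 c4 c5
      obtain ⟨e, he, -, he1⟩ := exists_g (rep_prim a2) (rep_prim a3) a4 a5
      obtain ⟨e', he', -, he1'⟩ := exists_g (rep_prim c2) (rep_prim c3) c4 c5
      have : z1 = z2 := rep_unique a3 c3 he he' fun i => by rw [← he1, ← he1']
      rw [this]
    have hTc : T.card = (T.image fun s => s.2.1).card := (Finset.card_image_of_injOn hinj).symm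
    set Y0 := T.image fun s => s.2.1 with hY0
    have hYmem : ∀ y ∈ Y0, ∃ g ∈ n.divisors, 1 ≤ g ∧ Rep y ∧ (x ᵥ* A) ⬝ᵥ y = 0 ∧ ht y ≤ Y ∧
        (∀ i, (g : ℤ) ∣ cr (y ᵥ* B) (C *ᵥ x) i ∧ |cr (y ᵥ* B) (C *ᵥ x) i| ≤ g * Z) := by
      intro y hy
      rw [hY0, mem_image] at hy
      obtain ⟨⟨x1, y1, z1⟩, h1, rfl⟩ := hy
      rw [hT, mem_filter] at h1
      obtain ⟨h1, e1⟩ := h1
      simp only at e1
      subst e1
      obtain ⟨a1, a2, a3, a4, a5, a6, a7, a8, a9⟩ := hS _ h1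
      simp only at a1 a2 a3 a4 a5 a6 a7 a8 a9
      obtain ⟨e, he, hed, he1⟩ := exists_g (rep_prim a2) (rep_prim a3) a4 a5
      refine ⟨e.natAbs, ?_, ?_, a2, ?_, a8, ?_⟩
      · rw [Nat.mem_divisors]
        exact ⟨Int.natAbs_dvd_natAbs.2 hed, by omega⟩
      · have := Int.natAbs_pos.2 he
        omega
      · rw [← dotProduct_mulVec]
        exact a4.1
      · intro i
        simp only
        rw [he1 i]
        refine ⟨Int.natAbs_dvd.2 (dvd_mul_right _ _), ?_⟩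
        rw [abs_mul, Int.abs_eq_natAbs e]
        have : |z1 i| ≤ (Z : ℤ) := (le_ht' z1 i).trans (by exact_mod_cast a9)
        gcongr
    have hcov : Y0 ⊆ n.divisors.biUnion fun g => Y0.filter fun y => 1 ≤ g ∧ Rep y ∧
        (x ᵥ* A) ⬝ᵥ y = 0 ∧ ht y ≤ Y ∧
        (∀ i, (g : ℤ) ∣ cr (y ᵥ* B) (C *ᵥ x) i ∧ |cr (y ᵥ* B) (C *ᵥ x) i| ≤ g * Z) := by
      intro y hy
      obtain ⟨g, hg, h⟩ := hYmem y hy
      rw [mem_biUnion]
      exact ⟨g, hg, by rw [mem_filter]; exact ⟨hy, h⟩⟩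
    have hone : ∀ g ∈ n.divisors, (Y0.filter fun y => 1 ≤ g ∧ Rep y ∧
        (x ᵥ* A) ⬝ᵥ y = 0 ∧ ht y ≤ Y ∧
        (∀ i, (g : ℤ) ∣ cr (y ᵥ* B) (C *ᵥ x) i ∧ |cr (y ᵥ* B) (C *ᵥ x) i| ≤ g * Z)).card *
        ht x ^ 2 ≤ ht x ^ 2 + kc A B C * (Y * Z) := by
      intro g hg
      have hgp : 1 ≤ g := by
        rw [Nat.mem_divisors] at hg
        exact Nat.pos_of_dvd_of_pos hg.1 (by omega)
      apply fib_xg hA hB hC b1 g Y Z hgp
      intro y hy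
      rw [mem_filter] at hy
      exact hy.2.2
    have h1 : T.card * ht x ^ 2 ≤ τ * (ht x ^ 2 + kc A B C * (Y * Z)) := by
      rw [hTc]
      calc Y0.card * ht x ^ 2 ≤ (∑ g ∈ n.divisors, (Y0.filter fun y => 1 ≤ g ∧ Rep y ∧
            (x ᵥ* A) ⬝ᵥ y = 0 ∧ ht y ≤ Y ∧
            (∀ i, (g : ℤ) ∣ cr (y ᵥ* B) (C *ᵥ x) i ∧
              |cr (y ᵥ* B) (C *ᵥ x) i| ≤ g * Z)).card) * ht x ^ 2 :=
            Nat.mul_le_mul_right _ ((Finset.card_le_card hcov).trans Finset.card_biUnion_le)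
        _ = ∑ g ∈ n.divisors, (Y0.filter fun y => 1 ≤ g ∧ Rep y ∧
            (x ᵥ* A) ⬝ᵥ y = 0 ∧ ht y ≤ Y ∧
            (∀ i, (g : ℤ) ∣ cr (y ᵥ* B) (C *ᵥ x) i ∧
              |cr (y ᵥ* B) (C *ᵥ x) i| ≤ g * Z)).card * ht x ^ 2 := Finset.sum_mul _ _ _
        _ ≤ ∑ g ∈ n.divisors, (ht x ^ 2 + kc A B C * (Y * Z)) := Finset.sum_le_sum hone
        _ = n.divisors.card * (ht x ^ 2 + kc A B C * (Y * Z)) := by
            rw [Finset.sum_const, smul_eq_mul]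
        _ ≤ τ * (ht x ^ 2 + kc A B C * (Y * Z)) := Nat.mul_le_mul_right _ (hτ n hn1 hn2)
    calc T.card * X ^ 2 ≤ T.card * (2 * ht x) ^ 2 := by gcongr
      _ = 4 * (T.card * ht x ^ 2) := by ring
      _ ≤ 4 * (τ * (ht x ^ 2 + kc A B C * (Y * Z))) := Nat.mul_le_mul_left _ h1
      _ ≤ 4 * (τ * (Y * Z + kc A B C * (Y * Z))) := by
          have : ht x ^ 2 ≤ Y * Z := by
            rw [sq]
            exact Nat.mul_le_mul (b6.trans hXY) (b6.trans hXZ)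
          gcongr
      _ = _ := by ring
  have hSc : S.card = ∑ x ∈ bx 3 X, (S.filter fun s => s.1 = x).card :=
    Finset.card_eq_sum_card_fiberwise fun s hs => by
      rw [mem_coe, mem_bx]
      exact (hS s hs).2.2.2.2.2.1
  have h1 : S.card * X ^ 2 ≤ (108 * (1 + kc A B C) * τ * (X * Y * Z)) * X ^ 2 := by
    calc S.card * X ^ 2 = ∑ x ∈ bx 3 X, (S.filter fun s => s.1 = x).card * X ^ 2 := by
          rw [hSc, Finset.sum_mul]
      _ ≤ ∑ x ∈ bx 3 X, 4 * τ * ((1 + kc A B C) * (Y * Z)) := Finset.sum_le_sum hfib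
      _ = (2 * X + 1) ^ 3 * (4 * τ * ((1 + kc A B C) * (Y * Z))) := by
          rw [Finset.sum_const, smul_eq_mul, card_bx]
      _ ≤ (3 * X) ^ 3 * (4 * τ * ((1 + kc A B C) * (Y * Z))) := by
          gcongr
          omega
      _ = _ := by ring
  exact Nat.le_of_mul_le_mul_right h1 (by positivity)

end Pool.Agent.H26BT
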