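import Mathlib
import Pool.Agent.H26BT.D

/-! All line bundles. -/

namespace Pool.Agent.H26BT

open Matrix Finset
open Pool.Agent.H26CC (bz card_bz mem_bz rep_unique)
open Pool.Agent.H548.WM (ht bx le_ht le_ht' ht_le exists_ht mem_bx card_bx dy dy_spec ht_pos Rep)
open Pool.Agent.H548.TC (Prim rep_prim prim_ne)

/-- The points of the open set. -/
def InU {R : Type*} [CommRing R] (A B C : Matrix (Fin 3) (Fin 3) R) (x y z : Fin 3 → R) : Prop :=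
  Tri A B C x y z ∧ psi A B C x ≠ 0 ∧ psi B C A y ≠ 0 ∧ psi C A B z ≠ 0

theorem InU.rot {R : Type*} [CommRing R] {A B C : Matrix (Fin 3) (Fin 3) R} {x y z : Fin 3 → R}
    (h : InU A B C x y z) : InU B C A y z x := ⟨h.1.rot, h.2.2.1, h.2.2.2, h.2.1⟩

theorem size1 {A B C : Matrix (Fin 3) (Fin 3) ℤ} {x y z : Fin 3 → ℤ} (hy : Prim y) (hz : Prim z)
    (h : InU A B C x y z) : ht z ≤ 2 * (mx B * mx C) * (ht x * ht y) := by
  obtain ⟨e, he, -, he1⟩ := exists_g hy hz h.1 h.2.1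
  apply ht_le
  intro i
  have h1 : |z i| ≤ |cr (y ᵥ* B) (C *ᵥ x) i| := by
    rw [he1, abs_mul]
    exact le_mul_of_one_le_left (abs_nonneg _) (Int.one_le_abs he)
  refine h1.trans ((cr_le (vm_le B y _ (le_ht' y)) (mv_le C x _ (le_ht' x)) i).trans (le_of_eq ?_))
  push_cast
  ring

/-- The data of a dyadic box. -/
def Bx (A B C : Matrix (Fin 3) (Fin 3) ℤ) (X Y Z : ℕ)
    (S : Finset ((Fin 3 → ℤ) × (Fin 3 → ℤ) × (Fin 3 → ℤ))) : Prop :=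
  ∀ s ∈ S, (Rep s.1 ∧ Rep s.2.1 ∧ Rep s.2.2) ∧ InU A B C s.1 s.2.1 s.2.2 ∧
    (ht s.1 ≤ X ∧ X ≤ 2 * ht s.1) ∧ (ht s.2.1 ≤ Y ∧ Y ≤ 2 * ht s.2.1) ∧
    (ht s.2.2 ≤ Z ∧ Z ≤ 2 * ht s.2.2)

theorem key {A B C : Matrix (Fin 3) (Fin 3) ℤ} (hA : A.det ≠ 0) (hB : B.det ≠ 0) (hC : C.det ≠ 0)
    (ε : ℝ) (hε : 0 < ε) : ∃ K : ℝ, 0 < K ∧ ∀ X Y Z : ℕ, 1 ≤ X → X ≤ Y → X ≤ Z →
      ∀ S, Bx A B C X Y Z S → (S.card : ℝ) ≤ K * ((X * Y * Z : ℕ) : ℝ) ^ (1 + ε) := by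
  obtain ⟨K, hK, hsm⟩ := Pool.Agent.W978.QM.small_bound (3 * mx (A * B.adjugateᵀ * C) + 1)
    (by omega) ε hε
  refine ⟨108 * (1 + kc A B C) * K, by positivity, ?_⟩
  intro X Y Z hX hXY hXZ S hS
  have hX0 : (0 : ℝ) < X := by exact_mod_cast hX
  set τ := ⌊K * (X : ℝ) ^ ε⌋₊ with hτ
  have h1 := cntx hA hB hC X Y Z τ hX hXY hXZ (fun n hn hn' => Nat.le_floor ((hsm X hX).1 n hn
    (hn'.trans (Nat.mul_le_mul_right _ (by omega))))) S (by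
      intro s hs
      obtain ⟨⟨a1, a2, a3⟩, a4, ⟨a5, a6⟩, ⟨a7, -⟩, ⟨a8, -⟩⟩ := hS s hs
      exact ⟨a1, a2, a3, a4.1, a4.2.1, a5, a6, a7, a8⟩)
  have h2 : (τ : ℝ) ≤ K * (X : ℝ) ^ ε := Nat.floor_le (by positivity)
  have h3 : (S.card : ℝ) ≤ 108 * (1 + kc A B C) * τ * ((X * Y * Z : ℕ) : ℝ) := by
    exact_mod_cast h1
  have hXle : X ≤ X * Y * Z := by
    have hY : 1 ≤ Y := hX.trans hXY
    have hZ : 1 ≤ Z := hX.trans hXZ
    rw [mul_assoc]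
    exact Nat.le_mul_of_pos_right _ (Nat.mul_pos hY hZ)
  have hpos : (0 : ℝ) < ((X * Y * Z : ℕ) : ℝ) := by
    exact_mod_cast lt_of_lt_of_le hX hXle
  have h4 : (X : ℝ) ^ ε ≤ ((X * Y * Z : ℕ) : ℝ) ^ ε := by
    apply Real.rpow_le_rpow hX0.le _ hε.le
    exact_mod_cast hXle
  calc (S.card : ℝ) ≤ 108 * (1 + kc A B C) * τ * ((X * Y * Z : ℕ) : ℝ) := h3
    _ ≤ 108 * (1 + kc A B C) * (K * ((X * Y * Z : ℕ) : ℝ) ^ ε) * ((X * Y * Z : ℕ) : ℝ) := by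
        have : (τ : ℝ) ≤ K * ((X * Y * Z : ℕ) : ℝ) ^ ε := h2.trans (by gcongr)
        gcongr
    _ = 108 * (1 + kc A B C) * K * ((X * Y * Z : ℕ) : ℝ) ^ (1 + ε) := by
        rw [Real.rpow_add hpos, Real.rpow_one]
        ring

theorem bx_rot {A B C : Matrix (Fin 3) (Fin 3) ℤ} {X Y Z : ℕ}
    {S : Finset ((Fin 3 → ℤ) × (Fin 3 → ℤ) × (Fin 3 → ℤ))} (h : Bx A B C X Y Z S) :
    ∃ S', Bx B C A Y Z X S' ∧ S'.card = S.card := by
  classical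
  refine ⟨S.image fun s => (s.2.1, s.2.2, s.1), ?_, ?_⟩
  · intro s hs
    rw [mem_image] at hs
    obtain ⟨⟨x, y, z⟩, hs, rfl⟩ := hs
    obtain ⟨⟨a1, a2, a3⟩, a4, a5, a6, a7⟩ := h _ hs
    exact ⟨⟨a2, a3, a1⟩, a4.rot, a6, a7, a5⟩
  · apply Finset.card_image_of_injective
    rintro ⟨x, y, z⟩ ⟨x', y', z'⟩ h
    simp only [Prod.mk.injEq] at h ⊢
    exact ⟨h.2.2, h.1, h.2.1⟩

/-- The number of points in a dyadic box. -/
theorem box {A B C : Matrix (Fin 3) (Fin 3) ℤ} (hA : A.det ≠ 0) (hB : B.det ≠ 0) (hC : C.det ≠ 0)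
    (ε : ℝ) (hε : 0 < ε) : ∃ K : ℝ, 0 < K ∧ ∀ X Y Z : ℕ, 1 ≤ X → 1 ≤ Y → 1 ≤ Z →
      ∀ S, Bx A B C X Y Z S → (S.card : ℝ) ≤ K * ((X * Y * Z : ℕ) : ℝ) ^ (1 + ε) := by
  obtain ⟨K1, hK1, h1⟩ := key hA hB hC ε hε
  obtain ⟨K2, hK2, h2⟩ := key hB hC hA ε hε
  obtain ⟨K3, hK3, h3⟩ := key hC hA hB ε hε
  refine ⟨K1 + K2 + K3, by positivity, ?_⟩
  intro X Y Z hX hY hZ S hS
  have hP : 0 ≤ ((X * Y * Z : ℕ) : ℝ) ^ (1 + ε) := by positivity
  obtain ⟨S', hS', hc'⟩ := bx_rot hS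
  obtain ⟨S'', hS'', hc''⟩ := bx_rot hS'
  have hmin : (X ≤ Y ∧ X ≤ Z) ∨ (Y ≤ Z ∧ Y ≤ X) ∨ (Z ≤ X ∧ Z ≤ Y) := by omega
  rcases hmin with h | h | h
  · refine (h1 X Y Z hX h.1 h.2 S hS).trans ?_
    gcongr
    linarith
  · have h4 := h2 Y Z X hY h.1 h.2 S' hS'
    rw [hc', show Y * Z * X = X * Y * Z by ring] at h4
    refine h4.trans ?_
    gcongr
    linarith
  · have h4 := h3 Z X Y hZ h.1 h.2 S'' hS''
    rw [hc'', hc', show Z * X * Y = X * Y * Z by ring] at h4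
    refine h4.trans ?_
    gcongr
    linarith

/-- The exponent: the infimum of all `t` such that `t L + K` is in the cone generated by the
classes `(-1,1,1)`, `(1,-1,1)` and `(1,1,-1)`, where `L = (l 0, l 1, l 2)` and `K = (-1,-1,-1)`. -/
noncomputable def fuj (l : Fin 3 → ℝ) : ℝ :=
  sInf {t : ℝ | ∃ c : Fin 3 → ℝ, (∀ i, 0 ≤ c i) ∧ t * l 0 - 1 = -c 0 + c 1 + c 2 ∧
    t * l 1 - 1 = c 0 - c 1 + c 2 ∧ t * l 2 - 1 = c 0 + c 1 - c 2}

theorem fuj_eq (l : Fin 3 → ℝ) (h0 : 0 < l 1 + l 2) (h1 : 0 < l 0 + l 2) (h2 : 0 < l 0 + l 1) :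
    fuj l = max (2 / (l 1 + l 2)) (max (2 / (l 0 + l 2)) (2 / (l 0 + l 1))) := by
  unfold fuj
  have : {t : ℝ | ∃ c : Fin 3 → ℝ, (∀ i, 0 ≤ c i) ∧ t * l 0 - 1 = -c 0 + c 1 + c 2 ∧
      t * l 1 - 1 = c 0 - c 1 + c 2 ∧ t * l 2 - 1 = c 0 + c 1 - c 2} =
      Set.Ici (max (2 / (l 1 + l 2)) (max (2 / (l 0 + l 2)) (2 / (l 0 + l 1)))) := by
    ext t
    rw [Set.mem_ofPred_eq, Set.mem_Ici, max_le_iff, max_le_iff, div_le_iff₀ h0, div_le_iff₀ h1,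
      div_le_iff₀ h2]
    constructor
    · rintro ⟨c, hc, e0, e1, e2⟩
      have c0 := hc 0
      have c1 := hc 1
      have c2 := hc 2
      refine ⟨?_, ?_, ?_⟩ <;> nlinarith
    · rintro ⟨a0, a1, a2⟩
      refine ⟨![((t * l 1 - 1) + (t * l 2 - 1)) / 2, ((t * l 0 - 1) + (t * l 2 - 1)) / 2,
        ((t * l 0 - 1) + (t * l 1 - 1)) / 2], ?_, ?_, ?_, ?_⟩
      · intro i
        fin_cases i
        · show 0 ≤ ((t * l 1 - 1) + (t * l 2 - 1)) / 2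
          linarith
        · show 0 ≤ ((t * l 0 - 1) + (t * l 2 - 1)) / 2
          linarith
        · show 0 ≤ ((t * l 0 - 1) + (t * l 1 - 1)) / 2
          linarith
      · simp only [Matrix.cons_val]
        ring
      · simp only [Matrix.cons_val]
        ring
      · simp only [Matrix.cons_val]
        ring
  rw [this]
  exact csInf_Ici

/-- Comparison of the heights. -/
theorem compare (M x y z l0 l1 l2 t T c0 c1 c2 : ℝ) (hM : 1 ≤ M) (hx : 1 ≤ x) (hy : 1 ≤ y)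
    (hz : 1 ≤ z) (hxyz : x ≤ M * (y * z)) (hyxz : y ≤ M * (z * x)) (hzxy : z ≤ M * (x * y))
    (ht : 0 ≤ t) (hc0 : 0 ≤ c0) (hc1 : 0 ≤ c1) (hc2 : 0 ≤ c2)
    (e0 : t * l0 - 1 = -c0 + c1 + c2) (e1 : t * l1 - 1 = c0 - c1 + c2)
    (e2 : t * l2 - 1 = c0 + c1 - c2) (hT0 : 0 < T)
    (hT : x ^ l0 * y ^ l1 * z ^ l2 ≤ T) : x * y * z ≤ M ^ (c0 + c1 + c2) * T ^ t := by
  have x0 : 0 < x := by linarith
  have y0 : 0 < y := by linarith
  have z0 : 0 < z := by linarith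
  have M0 : 0 < M := by linarith
  rw [← Real.log_le_log_iff (by positivity) (by positivity)]
  rw [Real.log_mul (by positivity) (by positivity), Real.log_mul (by positivity) (by positivity),
    Real.log_mul (by positivity) (by positivity), Real.log_rpow M0, Real.log_rpow hT0]
  have h0 : Real.log x ≤ Real.log M + (Real.log y + Real.log z) := by
    have := Real.log_le_log x0 hxyz
    rwa [Real.log_mul (by positivity) (by positivity), Real.log_mul (by positivity)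
      (by positivity)] at this
  have h1 : Real.log y ≤ Real.log M + (Real.log z + Real.log x) := by
    have := Real.log_le_log y0 hyxz
    rwa [Real.log_mul (by positivity) (by positivity), Real.log_mul (by positivity)
      (by positivity)] at this
  have h2 : Real.log z ≤ Real.log M + (Real.log x + Real.log y) := by
    have := Real.log_le_log z0 hzxy
    rwa [Real.log_mul (by positivity) (by positivity), Real.log_mul (by positivity)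
      (by positivity)] at this
  have h3 : l0 * Real.log x + l1 * Real.log y + l2 * Real.log z ≤ Real.log T := by
    have := Real.log_le_log (by positivity) hT
    rwa [Real.log_mul (by positivity) (by positivity), Real.log_mul (by positivity)
      (by positivity), Real.log_rpow x0, Real.log_rpow y0, Real.log_rpow z0] at this
  have h4 := mul_le_mul_of_nonneg_left h3 ht
  have h5 := mul_le_mul_of_nonneg_left h0 hc0
  have h6 := mul_le_mul_of_nonneg_left h1 hc1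
  have h7 := mul_le_mul_of_nonneg_left h2 hc2
  have e3 : t * (l0 * Real.log x + l1 * Real.log y + l2 * Real.log z) =
      (1 - c0 + c1 + c2) * Real.log x + (1 + c0 - c1 + c2) * Real.log y +
        (1 + c0 + c1 - c2) * Real.log z := by
    linear_combination Real.log x * e0 + Real.log y * e1 + Real.log z * e2
  rw [e3] at h4
  linarith

/-- The upper bound for all line bundles. -/
theorem upper {A B C : Matrix (Fin 3) (Fin 3) ℤ} (hA : A.det ≠ 0) (hB : B.det ≠ 0)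
    (hC : C.det ≠ 0) (l : Fin 3 → ℝ) (h0 : 0 < l 1 + l 2) (h1 : 0 < l 0 + l 2)
    (h2 : 0 < l 0 + l 1) (ε : ℝ) (hε : 0 < ε) :
    ∃ D : ℝ, ∀ T : ℝ, 1 ≤ T →
      {t : (Fin 3 → ℤ) × (Fin 3 → ℤ) × (Fin 3 → ℤ) | (Rep t.1 ∧ Rep t.2.1 ∧ Rep t.2.2) ∧
        InU A B C t.1 t.2.1 t.2.2 ∧
        (ht t.1 : ℝ) ^ l 0 * (ht t.2.1 : ℝ) ^ l 1 * (ht t.2.2 : ℝ) ^ l 2 ≤ T}.Finite ∧
      ({t : (Fin 3 → ℤ) × (Fin 3 → ℤ) × (Fin 3 → ℤ) | (Rep t.1 ∧ Rep t.2.1 ∧ Rep t.2.2) ∧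
        InU A B C t.1 t.2.1 t.2.2 ∧
        (ht t.1 : ℝ) ^ l 0 * (ht t.2.1 : ℝ) ^ l 1 * (ht t.2.2 : ℝ) ^ l 2 ≤ T}.ncard : ℝ) ≤
        D * T ^ (fuj l + ε) := by
  classical
  have hfuj := fuj_eq l h0 h1 h2
  set a := fuj l with ha
  have ha0 : 0 ≤ ((a * l 1 - 1) + (a * l 2 - 1)) / 2 := by
    have e : 2 / (l 1 + l 2) ≤ a := by rw [hfuj]; exact le_max_left _ _
    rw [div_le_iff₀ h0] at e
    linarith
  have ha1 : 0 ≤ ((a * l 0 - 1) + (a * l 2 - 1)) / 2 := by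
    have e : 2 / (l 0 + l 2) ≤ a := by
      rw [hfuj]; exact (le_max_left _ _).trans (le_max_right _ _)
    rw [div_le_iff₀ h1] at e
    linarith
  have ha2 : 0 ≤ ((a * l 0 - 1) + (a * l 1 - 1)) / 2 := by
    have e : 2 / (l 0 + l 1) ≤ a := by
      rw [hfuj]; exact (le_max_right _ _).trans (le_max_right _ _)
    rw [div_le_iff₀ h2] at e
    linarith
  have hapos : 0 < a := by
    have e : 2 / (l 1 + l 2) ≤ a := by rw [hfuj]; exact le_max_left _ _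
    have : 0 < 2 / (l 1 + l 2) := by positivity
    linarith
  set c0 := ((a * l 1 - 1) + (a * l 2 - 1)) / 2 with hc0
  set c1 := ((a * l 0 - 1) + (a * l 2 - 1)) / 2 with hc1
  set c2 := ((a * l 0 - 1) + (a * l 1 - 1)) / 2 with hc2
  set δ := ε / (4 * a) with hδ
  have hδ0 : 0 < δ := by positivity
  obtain ⟨C₁, hC₁, hbox⟩ := box hA hB hC δ hδ0
  obtain ⟨C₂, hC₂, hlog⟩ := Pool.Agent.W978.QM.log_bound δ hδ0
  set Mn : ℕ := 1 + 2 * (mx A * mx B) + 2 * (mx B * mx C) + 2 * (mx C * mx A) with hMn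
  have hMn1 : (1 : ℝ) ≤ Mn := by
    have : 1 ≤ Mn := by omega
    exact_mod_cast this
  set K : ℝ := (Mn : ℝ) ^ (c0 + c1 + c2) with hK
  have hK1 : 1 ≤ K := Real.one_le_rpow hMn1 (by linarith)
  have hK0 : 0 < K := by linarith
  refine ⟨(C₂ * (2 * K) ^ δ) ^ 3 * (C₁ * (8 * K) ^ (1 + δ)), ?_⟩
  intro T hT
  have hT0 : 0 < T := by linarith
  have hTa : (1 : ℝ) ≤ T ^ a := Real.one_le_rpow hT hapos.le
  have hTa0 : (0 : ℝ) < T ^ a := by linarith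
  have hKT : 1 ≤ K * T ^ a := by nlinarith
  set X0 := ⌊K * T ^ a⌋₊ with hX0
  have hX01 : 1 ≤ X0 := by
    rw [hX0, Nat.one_le_floor_iff]
    exact hKT
  have hcomp : ∀ x y z : Fin 3 → ℤ, Rep x → Rep y → Rep z → InU A B C x y z →
      (ht x : ℝ) ^ l 0 * (ht y : ℝ) ^ l 1 * (ht z : ℝ) ^ l 2 ≤ T →
      (ht x : ℝ) * ht y * ht z ≤ K * T ^ a := by
    intro x y z hx hy hz hI h
    have n0 : (1 : ℝ) ≤ ht x := by exact_mod_cast ht_pos (prim_ne (rep_prim hx))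
    have n1 : (1 : ℝ) ≤ ht y := by exact_mod_cast ht_pos (prim_ne (rep_prim hy))
    have n2 : (1 : ℝ) ≤ ht z := by exact_mod_cast ht_pos (prim_ne (rep_prim hz))
    have s1 : ht z ≤ Mn * (ht x * ht y) :=
      (size1 (rep_prim hy) (rep_prim hz) hI).trans (Nat.mul_le_mul_right _ (by omega))
    have s2 : ht x ≤ Mn * (ht y * ht z) :=
      (size1 (rep_prim hz) (rep_prim hx) hI.rot).trans (Nat.mul_le_mul_right _ (by omega))
    have s3 : ht y ≤ Mn * (ht z * ht x) :=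
      (size1 (rep_prim hx) (rep_prim hy) hI.rot.rot).trans (Nat.mul_le_mul_right _ (by omega))
    exact compare Mn (ht x) (ht y) (ht z) (l 0) (l 1) (l 2) a T c0 c1 c2 hMn1 n0 n1 n2
      (by exact_mod_cast s2) (by exact_mod_cast s3) (by exact_mod_cast s1) hapos.le ha0 ha1 ha2
      (by rw [hc0, hc1, hc2]; ring) (by rw [hc0, hc1, hc2]; ring) (by rw [hc0, hc1, hc2]; ring)
      hT0 h
  have hle : ∀ x y z : ℕ, 1 ≤ x → 1 ≤ y → 1 ≤ z → (x : ℝ) * y * z ≤ K * T ^ a →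
      x ≤ X0 ∧ y ≤ X0 ∧ z ≤ X0 := by
    intro x y z hx hy hz h
    have h3 : x * y * z ≤ X0 := by
      apply Nat.le_floor
      push_cast
      exact h
    refine ⟨le_trans ?_ h3, le_trans ?_ h3, le_trans ?_ h3⟩
    · rw [mul_assoc]
      exact Nat.le_mul_of_pos_right _ (Nat.mul_pos hy hz)
    · rw [mul_comm x y, mul_assoc]
      exact Nat.le_mul_of_pos_right _ (Nat.mul_pos hx hz)
    · exact Nat.le_mul_of_pos_left _ (Nat.mul_pos hx hy)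
  set P : Finset ((Fin 3 → ℤ) × (Fin 3 → ℤ) × (Fin 3 → ℤ)) :=
    ((bx 3 X0) ×ˢ ((bx 3 X0) ×ˢ (bx 3 X0))).filter
    fun t => (Rep t.1 ∧ Rep t.2.1 ∧ Rep t.2.2) ∧ InU A B C t.1 t.2.1 t.2.2 ∧
      (ht t.1 : ℝ) ^ l 0 * (ht t.2.1 : ℝ) ^ l 1 * (ht t.2.2 : ℝ) ^ l 2 ≤ T with hP
  have hset : {t : (Fin 3 → ℤ) × (Fin 3 → ℤ) × (Fin 3 → ℤ) | (Rep t.1 ∧ Rep t.2.1 ∧ Rep t.2.2) ∧
      InU A B C t.1 t.2.1 t.2.2 ∧
      (ht t.1 : ℝ) ^ l 0 * (ht t.2.1 : ℝ) ^ l 1 * (ht t.2.2 : ℝ) ^ l 2 ≤ T} = ↑P := by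
    ext t
    rw [hP, mem_coe, mem_filter, mem_product, mem_product, mem_bx, mem_bx, mem_bx]
    constructor
    · rintro ⟨⟨h1, h2, h3⟩, h4, h5⟩
      exact ⟨hle _ _ _ (ht_pos (prim_ne (rep_prim h1))) (ht_pos (prim_ne (rep_prim h2)))
        (ht_pos (prim_ne (rep_prim h3))) (hcomp _ _ _ h1 h2 h3 h4 h5), ⟨h1, h2, h3⟩, h4, h5⟩
    · rintro ⟨-, h⟩
      exact h
  rw [hset]
  refine ⟨P.finite_toSet, ?_⟩
  rw [Set.ncard_coe_finset]
  set L := Nat.log 2 (2 * X0) with hL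
  set I : Finset (ℕ × ℕ × ℕ) := range (L + 1) ×ˢ (range (L + 1) ×ˢ range (L + 1)) with hI
  have hIc : I.card = (L + 1) ^ 3 := by
    rw [hI, card_product, card_product, card_range]
    ring
  have hdy : ∀ v : Fin 3 → ℤ, Rep v → ht v ≤ X0 → dy v < L + 1 := by
    intro v hv hvX
    apply Nat.lt_succ_of_le
    apply Nat.le_log_of_pow_le (by norm_num)
    exact ((dy_spec (ht_pos (prim_ne (rep_prim hv)))).2).trans (Nat.mul_le_mul_left _ hvX)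
  have hcov : P ⊆ I.biUnion fun j => P.filter fun t => (dy t.1, dy t.2.1, dy t.2.2) = j := by
    intro t ht'
    have ht'' := ht'
    rw [hP, mem_filter, mem_product, mem_product, mem_bx, mem_bx, mem_bx] at ht''
    obtain ⟨⟨hx, hy, hz⟩, ⟨h1, h2, h3⟩, -⟩ := ht''
    rw [mem_biUnion]
    refine ⟨(dy t.1, dy t.2.1, dy t.2.2), ?_, ?_⟩
    · rw [hI, mem_product, mem_product, mem_range, mem_range, mem_range]
      exact ⟨hdy _ h1 hx, hdy _ h2 hy, hdy _ h3 hz⟩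
    · rw [mem_filter]
      exact ⟨ht', rfl⟩
  have hlev : ∀ j ∈ I, (((P.filter fun t => (dy t.1, dy t.2.1, dy t.2.2) = j).card : ℕ) : ℝ) ≤
      C₁ * (8 * (K * T ^ a)) ^ (1 + δ) := by
    rintro ⟨i, j, k⟩ _
    set Q := P.filter fun t => (dy t.1, dy t.2.1, dy t.2.2) = (i, j, k) with hQ
    rcases Q.eq_empty_or_nonempty with h0 | ⟨s, hs⟩
    · rw [h0]
      simp only [card_empty, Nat.cast_zero]
      positivity
    have hmem : ∀ t ∈ Q, (Rep t.1 ∧ Rep t.2.1 ∧ Rep t.2.2) ∧ InU A B C t.1 t.2.1 t.2.2 ∧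
        (ht t.1 : ℝ) ^ l 0 * (ht t.2.1 : ℝ) ^ l 1 * (ht t.2.2 : ℝ) ^ l 2 ≤ T ∧
        dy t.1 = i ∧ dy t.2.1 = j ∧ dy t.2.2 = k := by
      intro t ht'
      rw [hQ, mem_filter, hP, mem_filter] at ht'
      obtain ⟨⟨-, h1, h2, h3⟩, h4⟩ := ht'
      simp only [Prod.mk.injEq] at h4
      exact ⟨h1, h2, h3, h4⟩
    have h1 := hbox (2 ^ i) (2 ^ j) (2 ^ k) Nat.one_le_two_pow Nat.one_le_two_pow
      Nat.one_le_two_pow Q (by
        intro t ht'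
        obtain ⟨⟨t1, t2, t3⟩, t4, -, t6, t7, t8⟩ := hmem t ht'
        have d1 := dy_spec (ht_pos (prim_ne (rep_prim t1)))
        have d2 := dy_spec (ht_pos (prim_ne (rep_prim t2)))
        have d3 := dy_spec (ht_pos (prim_ne (rep_prim t3)))
        rw [t6] at d1
        rw [t7] at d2
        rw [t8] at d3
        exact ⟨⟨t1, t2, t3⟩, t4, d1, d2, d3⟩)
    obtain ⟨⟨s1, s2, s3⟩, s4, s5, s6, s7, s8⟩ := hmem s hs
    have d1 := (dy_spec (ht_pos (prim_ne (rep_prim s1)))).2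
    have d2 := (dy_spec (ht_pos (prim_ne (rep_prim s2)))).2
    have d3 := (dy_spec (ht_pos (prim_ne (rep_prim s3)))).2
    rw [s6] at d1
    rw [s7] at d2
    rw [s8] at d3
    have h4 := hcomp _ _ _ s1 s2 s3 s4 s5
    have h5 : ((2 ^ i * 2 ^ j * 2 ^ k : ℕ) : ℝ) ≤ 8 * (K * T ^ a) := by
      have h6 : 2 ^ i * 2 ^ j * 2 ^ k ≤ 8 * (ht s.1 * ht s.2.1 * ht s.2.2) := by
        calc 2 ^ i * 2 ^ j * 2 ^ k ≤ (2 * ht s.1) * (2 * ht s.2.1) * (2 * ht s.2.2) := by gcongr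
          _ = _ := by ring
      have h7 : ((2 ^ i * 2 ^ j * 2 ^ k : ℕ) : ℝ) ≤ 8 * (ht s.1 * ht s.2.1 * ht s.2.2) := by
        exact_mod_cast h6
      linarith
    refine h1.trans ?_
    gcongr
  have hLb : ((L : ℝ) + 1) ≤ C₂ * (2 * (K * T ^ a)) ^ δ := by
    have h2 : ((2 * X0 : ℕ) : ℝ) ≤ 2 * (K * T ^ a) := by
      push_cast
      have : (X0 : ℝ) ≤ K * T ^ a := Nat.floor_le (by positivity)
      linarith
    refine (hlog (2 * X0) (by omega)).trans ?_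
    gcongr
  have haδ : a * δ = ε / 4 := by
    rw [hδ]
    field_simp
  have hTδ : ((2 * (K * T ^ a)) ^ δ) = (2 * K) ^ δ * T ^ (ε / 4) := by
    rw [← mul_assoc, Real.mul_rpow (by positivity) (by positivity), ← Real.rpow_mul hT0.le, haδ]
  have hTδ' : ((8 * (K * T ^ a)) ^ (1 + δ)) = (8 * K) ^ (1 + δ) * T ^ (a + ε / 4) := by
    rw [← mul_assoc, Real.mul_rpow (by positivity) (by positivity), ← Real.rpow_mul hT0.le,
      mul_add, haδ, mul_one]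
  calc (P.card : ℝ) ≤ ∑ j ∈ I, (((P.filter fun t => (dy t.1, dy t.2.1, dy t.2.2) = j).card : ℕ) : ℝ) := by
        have h1 := (Finset.card_le_card hcov).trans Finset.card_biUnion_le
        exact_mod_cast h1
    _ ≤ ∑ j ∈ I, C₁ * (8 * (K * T ^ a)) ^ (1 + δ) := Finset.sum_le_sum hlev
    _ = ((L : ℝ) + 1) ^ 3 * (C₁ * (8 * (K * T ^ a)) ^ (1 + δ)) := by
        rw [Finset.sum_const, nsmul_eq_mul, hIc]
        push_cast
        ring
    _ ≤ (C₂ * (2 * (K * T ^ a)) ^ δ) ^ 3 * (C₁ * (8 * (K * T ^ a)) ^ (1 + δ)) := by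
        gcongr
    _ = (C₂ * (2 * K) ^ δ) ^ 3 * (C₁ * (8 * K) ^ (1 + δ)) *
          (T ^ (a + ε / 4) * (T ^ (ε / 4) * T ^ (ε / 4) * T ^ (ε / 4))) := by
        rw [hTδ, hTδ']
        ring
    _ = (C₂ * (2 * K) ^ δ) ^ 3 * (C₁ * (8 * K) ^ (1 + δ)) * T ^ (a + ε) := by
        rw [← Real.rpow_add hT0, ← Real.rpow_add hT0, ← Real.rpow_add hT0]
        congr 2
        ring

end Pool.Agent.H26BT
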