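import Mathlib
import Pool.Agent.H26BT.E

/-! The open set is not empty; smoothness. -/

namespace Pool.Agent.H26BT

open Matrix

theorem dp_cr {R : Type*} [CommRing R] (p q : Fin 3 → R) : p ⬝ᵥ cr p q = 0 := by
  rw [dp_eq, cr0, cr1, cr2]
  ring

theorem cr_dp {R : Type*} [CommRing R] (p q : Fin 3 → R) : cr p q ⬝ᵥ q = 0 := by
  rw [dp_eq, cr0, cr1, cr2]
  ring

theorem det_psi {A B C : Matrix (Fin 3) (Fin 3) ℤ} (hA : A.det ≠ 0) (hB : B.det ≠ 0)
    (hC : C.det ≠ 0) : ∃ x : Fin 3 → ℤ, psi A B C x ≠ 0 := by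
  by_contra hcon
  push Not at hcon
  set M := A * B.adjugateᵀ * C with hM
  have hd : M.det ≠ 0 := by
    rw [hM, det_mul, det_mul, det_transpose, det_adjugate]
    exact mul_ne_zero (mul_ne_zero hA (pow_ne_zero _ hB)) hC
  apply hd
  have h : ∀ x : Fin 3 → ℤ, x 0 * (M 0 0 * x 0 + M 0 1 * x 1 + M 0 2 * x 2) +
      x 1 * (M 1 0 * x 0 + M 1 1 * x 1 + M 1 2 * x 2) +
      x 2 * (M 2 0 * x 0 + M 2 1 * x 1 + M 2 2 * x 2) = 0 := by
    intro x
    have := hcon x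
    rwa [psi, ← hM, dp_eq, mv_eq, mv_eq, mv_eq] at this
  have h0 := h ![1, 0, 0]
  have h1 := h ![0, 1, 0]
  have h2 := h ![0, 0, 1]
  have h01 := h ![1, 1, 0]
  have h02 := h ![1, 0, 1]
  have h12 := h ![0, 1, 1]
  simp only [Matrix.cons_val] at h0 h1 h2 h01 h02 h12
  have e0 : M 0 0 = 0 := by linarith
  have e1 : M 1 1 = 0 := by linarith
  have e2 : M 2 2 = 0 := by linarith
  have e01 : M 1 0 = -M 0 1 := by linarith
  have e02 : M 2 0 = -M 0 2 := by linarith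
  have e12 : M 2 1 = -M 1 2 := by linarith
  rw [det_fin_three, e0, e1, e2, e01, e02, e12]
  ring

theorem psi_line (A B C : Matrix (Fin 3) (Fin 3) ℤ) (x p : Fin 3 → ℤ) (t : ℤ) :
    psi A B C (fun i => x i + t * p i) = psi A B C x +
      (x ⬝ᵥ (A * B.adjugateᵀ * C) *ᵥ p + p ⬝ᵥ (A * B.adjugateᵀ * C) *ᵥ x) * t +
      psi A B C p * t ^ 2 := by
  simp only [psi, dp_eq, mv_eq]
  ring

/-- Two quadratic polynomials. -/
theorem quad {a0 a1 a2 b0 b1 b2 : ℤ} (ha : a0 ≠ 0) (hb : b2 ≠ 0) :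
    ∃ t : ℤ, a0 + a1 * t + a2 * t ^ 2 ≠ 0 ∧ b0 + b1 * t + b2 * t ^ 2 ≠ 0 := by
  by_contra hcon
  push Not at hcon
  open Polynomial in
  set P : ℤ[X] := Polynomial.C a0 + Polynomial.C a1 * X + Polynomial.C a2 * X ^ 2 with hP
  open Polynomial in
  set Q : ℤ[X] := Polynomial.C b0 + Polynomial.C b1 * X + Polynomial.C b2 * X ^ 2 with hQ
  have h : P * Q = 0 := by
    apply Polynomial.funext
    intro t
    rw [Polynomial.eval_mul, Polynomial.eval_zero]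
    have eP : P.eval t = a0 + a1 * t + a2 * t ^ 2 := by simp [hP]
    have eQ : Q.eval t = b0 + b1 * t + b2 * t ^ 2 := by simp [hQ]
    by_cases h1 : P.eval t = 0
    · rw [h1, zero_mul]
    · rw [eP] at h1
      rw [eQ, hcon t h1, mul_zero]
  rcases mul_eq_zero.1 h with h1 | h1
  · apply ha
    have : P.coeff 0 = a0 := by simp [hP]
    rw [← this, h1, Polynomial.coeff_zero]
  · apply hb
    have : Q.coeff 2 = b2 := by
      rw [hQ, Polynomial.coeff_add, Polynomial.coeff_add, Polynomial.coeff_C_mul,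
        Polynomial.coeff_C_mul, Polynomial.coeff_X_pow, Polynomial.coeff_X, Polynomial.coeff_C]
      norm_num
    rw [← this, h1, Polynomial.coeff_zero]

theorem exists_orth (y : Fin 3 → ℤ) : ∃ u : Fin 3 → ℤ, u ≠ 0 ∧ u ⬝ᵥ y = 0 := by
  by_cases h : y 0 = 0 ∧ y 1 = 0
  · refine ⟨![1, 0, 0], fun h => by simpa using congrFun h 0, ?_⟩
    rw [dp_eq]
    simp only [Matrix.cons_val]
    rw [h.1]
    ring
  · refine ⟨![-y 1, y 0, 0], fun h' => h ⟨?_, ?_⟩, ?_⟩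
    · simpa using congrFun h' 1
    · simpa using congrFun h' 0
    · rw [dp_eq]
      simp only [Matrix.cons_val]
      ring

theorem dp_self {u : Fin 3 → ℤ} (hu : u ≠ 0) : u ⬝ᵥ u ≠ 0 := by
  intro h
  rw [dp_eq] at h
  apply hu
  have n : ∀ i, 0 ≤ u i * u i := fun i => mul_self_nonneg _
  have e0 : u 0 * u 0 = 0 := by linarith [n 0, n 1, n 2]
  have e1 : u 1 * u 1 = 0 := by linarith [n 0, n 1, n 2]
  have e2 : u 2 * u 2 = 0 := by linarith [n 0, n 1, n 2]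
  funext i
  fin_cases i
  · exact mul_self_eq_zero.1 e0
  · exact mul_self_eq_zero.1 e1
  · exact mul_self_eq_zero.1 e2

theorem psi_smul (A B C : Matrix (Fin 3) (Fin 3) ℤ) (c : ℤ) (x : Fin 3 → ℤ) :
    psi A B C (fun i => c * x i) = c ^ 2 * psi A B C x := by
  simp only [psi, dp_eq, mv_eq]
  ring

theorem exists_xy {A B C : Matrix (Fin 3) (Fin 3) ℤ} (hA : A.det ≠ 0) (hB : B.det ≠ 0)
    (hC : C.det ≠ 0) : ∃ x y : Fin 3 → ℤ, x ⬝ᵥ A *ᵥ y = 0 ∧ psi A B C x ≠ 0 ∧ psi B C A y ≠ 0 := by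
  obtain ⟨x1, hx1⟩ := det_psi hA hB hC
  obtain ⟨y0, hy0⟩ := det_psi hB hC hA
  obtain ⟨u, hu, huy⟩ := exists_orth y0
  set x2 := u ᵥ* A.adjugate with hx2
  have hx2A : ∀ i, (x2 ᵥ* A) i = A.det * u i := by
    intro i
    rw [hx2, vecMul_vecMul, adjugate_mul, vecMul_smul, vecMul_one, Pi.smul_apply, smul_eq_mul]
  set w := cr y0 u with hw
  set p := cr (x1 ᵥ* A) w with hp
  set c := A.det * (u ⬝ᵥ u) with hc
  have hc0 : c ≠ 0 := mul_ne_zero hA (dp_self hu)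
  have hcr : ∀ i, cr u w i = (u ⬝ᵥ u) * y0 i := by
    intro i
    rw [hw, bac, huy]
    ring
  obtain ⟨t, ht1, ht2⟩ := quad (a0 := psi A B C x1)
    (a1 := x1 ⬝ᵥ (A * B.adjugateᵀ * C) *ᵥ x2 + x2 ⬝ᵥ (A * B.adjugateᵀ * C) *ᵥ x1)
    (a2 := psi A B C x2) (b0 := psi B C A p)
    (b1 := p ⬝ᵥ (B * C.adjugateᵀ * A) *ᵥ (fun i => c * y0 i) +
      (fun i => c * y0 i) ⬝ᵥ (B * C.adjugateᵀ * A) *ᵥ p)
    (b2 := psi B C A fun i => c * y0 i) hx1
    (by rw [psi_smul]; exact mul_ne_zero (pow_ne_zero _ hc0) hy0)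
  rw [← psi_line] at ht1 ht2
  refine ⟨_, _, ?_, ht1, ht2⟩
  have hy : (fun i => p i + t * (c * y0 i)) = cr ((fun i => x1 i + t * x2 i) ᵥ* A) w := by
    have hlin : ∀ i, ((fun i => x1 i + t * x2 i) ᵥ* A) i = (x1 ᵥ* A) i + t * (A.det * u i) := by
      intro i
      rw [← hx2A, vm_eq, vm_eq, vm_eq]
      ring
    funext i
    have h1 : t * (c * y0 i) = t * A.det * cr u w i := by
      rw [hcr, hc]
      ring
    rw [h1, hp]
    fin_cases i <;> simp only [Fin.zero_eta, Fin.mk_one, Fin.reduceFinMk, cr0, cr1, cr2, hlin] <;>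
      ring
  rw [hy, dotProduct_mulVec]
  exact dp_cr _ _

theorem nonempty {A B C : Matrix (Fin 3) (Fin 3) ℤ} (hA : A.det ≠ 0) (hB : B.det ≠ 0)
    (hC : C.det ≠ 0) : ∃ x y z : Fin 3 → ℤ, InU A B C x y z := by
  obtain ⟨x, y, hxy, hx, hy⟩ := exists_xy hA hB hC
  set z := cr (y ᵥ* B) (C *ᵥ x) with hz
  have hT : Tri A B C x y z := by
    refine ⟨hxy, ?_, ?_⟩
    · rw [dotProduct_mulVec]
      exact dp_cr _ _
    · exact cr_dp _ _
  have hx0 : x ≠ 0 := by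
    rintro rfl
    apply hx
    simp [psi]
  have e1 : ∀ i, cr (x ᵥ* A) (B *ᵥ z) i = psi A B C x * y i := by
    intro i
    have h3 : B *ᵥ z = cr y (B.adjugateᵀ *ᵥ (C *ᵥ x)) := by
      funext j
      exact cof2 B y (C *ᵥ x) j
    rw [h3, bac, ← dotProduct_mulVec x A y, hxy, psi_eq]
    ring
  have e2 : ∀ i, cr (z ᵥ* C) (A *ᵥ y) i = psi B C A y * x i := by
    intro i
    have h3 : ∀ j, (z ᵥ* C) j = cr (C.adjugate *ᵥ (y ᵥ* B)) x j := by
      intro j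
      have h4 := cof2 Cᵀ x (y ᵥ* B) j
      rw [vecMul_transpose, adjugate_transpose, transpose_transpose] at h4
      have h5 : (Cᵀ *ᵥ cr (C *ᵥ x) (y ᵥ* B)) j = -(z ᵥ* C) j := by
        rw [mulVec_transpose, hz, vm_eq, vm_eq]
        simp only [cr0, cr1, cr2]
        ring
      rw [h5] at h4
      have h6 : cr x (C.adjugate *ᵥ (y ᵥ* B)) j = -cr (C.adjugate *ᵥ (y ᵥ* B)) x j := by
        fin_cases j <;> simp only [Fin.zero_eta, Fin.mk_one, Fin.reduceFinMk, cr0, cr1, cr2] <;>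
          ring
      rw [h6] at h4
      exact neg_inj.1 h4
    have h4 : z ᵥ* C = cr (C.adjugate *ᵥ (y ᵥ* B)) x := funext h3
    have h5 : cr (z ᵥ* C) (A *ᵥ y) i = -cr (A *ᵥ y) (z ᵥ* C) i := by
      fin_cases i <;> simp only [Fin.zero_eta, Fin.mk_one, Fin.reduceFinMk, cr0, cr1, cr2] <;>
        ring
    have h6 : (A *ᵥ y) ⬝ᵥ (C.adjugate *ᵥ (y ᵥ* B)) = psi B C A y := by
      rw [psi_eq, dotProduct_mulVec, ← mulVec_transpose, dotProduct_comm]
    rw [h5, h4, bac, h6, dotProduct_comm (A *ᵥ y) x, hxy]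
    ring
  have h := prod_e hx0 hT.rot.rot e1 e2
  refine ⟨x, y, z, hT, hx, hy, ?_⟩
  rw [← h]
  exact mul_ne_zero hx hy

/-- The variety `x ᵀ A y = y ᵀ B z = z ᵀ C x = 0` is smooth of dimension 3: at every complex point of
it the gradients of the three equations are linearly independent. -/
def Smooth (A B C : Matrix (Fin 3) (Fin 3) ℂ) : Prop :=
  ∀ x y z : Fin 3 → ℂ, x ≠ 0 → y ≠ 0 → z ≠ 0 → Tri A B C x y z → ∀ a b c : ℂ,
    (∀ i, a * (A *ᵥ y) i + c * (z ᵥ* C) i = 0) →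
    (∀ i, a * (x ᵥ* A) i + b * (B *ᵥ z) i = 0) →
    (∀ i, b * (y ᵥ* B) i + c * (C *ᵥ x) i = 0) → a = 0 ∧ b = 0 ∧ c = 0

theorem Smooth.rot {A B C : Matrix (Fin 3) (Fin 3) ℂ} (h : Smooth A B C) : Smooth B C A := by
  intro x y z hx hy hz hT a b c h1 h2 h3
  obtain ⟨g1, g2, g3⟩ := h z x y hz hx hy hT.rot.rot c a b (fun i => by rw [← h3 i]; ring)
    (fun i => by rw [← h1 i]; ring) h2
  exact ⟨g2, g3, g1⟩

theorem Smooth.det {A B C : Matrix (Fin 3) (Fin 3) ℂ} (h : Smooth A B C) : A.det ≠ 0 := by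
  intro hA
  obtain ⟨y, hy, hy0⟩ := Matrix.exists_mulVec_eq_zero_iff.2 hA
  obtain ⟨x, hx, hx0⟩ := Matrix.exists_vecMul_eq_zero_iff.2 hA
  obtain ⟨z, hz, hz0⟩ := Matrix.exists_mulVec_eq_zero_iff.2
    (show (Matrix.of ![y ᵥ* B, C *ᵥ x, 0]).det = 0 by
      rw [det_fin_three]
      simp only [of_apply, Matrix.cons_val, Pi.zero_apply]
      ring)
  have e0 := congrFun hz0 0
  have e1 := congrFun hz0 1
  rw [mv_eq] at e0 e1
  simp only [of_apply, Matrix.cons_val, Pi.zero_apply] at e0 e1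
  have hT : Tri A B C x y z := by
    refine ⟨?_, ?_, ?_⟩
    · rw [hy0, dotProduct_zero]
    · rw [dotProduct_mulVec, dp_eq]
      exact e0
    · rw [dotProduct_comm, dp_eq]
      exact e1
  have := h x y z hx hy hz hT 1 0 0 (fun i => by rw [hy0]; simp) (fun i => by rw [hx0]; simp)
    (fun i => by simp)
  exact one_ne_zero this.1

end Pool.Agent.H26BT
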